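import Mathlib
import Pool.Agent.Lib_helper68.OG16
import Pool.Agent.Lib_helper80.CP.Forest

/-!
# CY: the levels of an ordinal are independent of each other
-/

set_option autoImplicit false
set_option linter.unusedSectionVars false
set_option linter.deprecated false

open Cardinal Ordinal Set

namespace Pool.Agent.CY

open Pool.Agent.H68.OG Pool.Agent.CP

/-- the path property for subsets of well-ordered sets -/
theorem pi_sub {α : Ordinal.{0}} (h : PI α) {V : Type} [LinearOrder V] [WellFoundedLT V]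
    (G : SimpleGraph V)
    (hG : ¬ ∃ f : ℕ → V, Function.Injective f ∧ ∀ n, G.Adj (f n) (f (n + 1)))
    {A : Set V} (hA : TG A α) :
    ∃ X : Set V, X ⊆ A ∧ (∀ x ∈ X, ∀ y ∈ X, ¬ G.Adj x y) ∧ TG X α ∧ #X ≤ α.card := by
  classical
  rcases eq_or_ne α 0 with rfl | hα
  · refine ⟨∅, Set.empty_subset _, fun x hx => absurd hx (Set.notMem_empty x), ?_, by simp⟩
    obtain ⟨g, -, -⟩ := hA
    exact ⟨g, fun x hx => absurd hx (not_lt.2 zero_le), fun x y _ hy => absurd hy (not_lt.2 zero_le)⟩
  have hN : Nonempty α.ToType := Ordinal.nonempty_toType_iff.2 hα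
  obtain ⟨g, hg, hm⟩ := hA
  let e := (Ordinal.ToType.mk (o := α)).symm
  have hmono : ∀ x y : α.ToType, x < y → g (e x).1 < g (e y).1 := fun x y hxy =>
    hm _ _ (e.lt_iff_lt.2 hxy) (e y).2
  have hinj : ∀ x y : α.ToType, g (e x).1 = g (e y).1 → x = y := by
    intro x y hxy
    rcases lt_trichotomy x y with h1 | h1 | h1
    · exact absurd hxy (hmono x y h1).ne
    · exact h1
    · exact absurd hxy (hmono y x h1).ne'
  let H : SimpleGraph α.ToType :=
    { Adj := fun x y => G.Adj (g (e x).1) (g (e y).1)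
      symm := ⟨fun x y hxy => hxy.symm⟩
      loopless := ⟨fun x hx => G.loopless.irrefl _ hx⟩ }
  rcases h H with ⟨p, hp, hadj⟩ | ⟨S, hS, hSt⟩
  · exact absurd ⟨fun n => g (e (p n)).1, fun n m hnm => hp (hinj _ _ hnm), hadj⟩ hG
  · obtain ⟨g', hg', hm'⟩ := tg_of_le_typ (le_of_eq hSt.symm)
    refine ⟨{v | ∃ x ∈ S, v = g (e x).1}, ?_, ?_, ?_, ?_⟩
    · rintro _ ⟨x, -, rfl⟩
      exact hg _ (e x).2
    · rintro _ ⟨x, hx, rfl⟩ _ ⟨y, hy, rfl⟩
      exact hS x hx y hy
    · exact ⟨fun x => g (e (g' x)).1, fun x hx => ⟨g' x, hg' x hx, rfl⟩,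
        fun x y hxy hy => hmono _ _ (hm' x y hxy hy)⟩
    · have h1 : {v | ∃ x ∈ S, v = g (e x).1} ⊆ Set.range (fun x : α.ToType => g (e x).1) := by
        rintro _ ⟨x, -, rfl⟩
        exact ⟨x, rfl⟩
      refine ((Cardinal.mk_le_mk_of_subset h1).trans Cardinal.mk_range_le).trans ?_
      rw [Cardinal.mk_toType]

/-- the comparability graph of a forest has no infinite path -/
theorem no_path {V : Type} {out : V → Finset V} (hT : Tr out) (f : ℕ → V)
    (hf : Function.Injective f) (hadj : ∀ n, f n ∈ out (f (n + 1)) ∨ f (n + 1) ∈ out (f n)) :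
    False := by
  classical
  have key : ∀ n, ∃ m, n ≤ m ∧ ∀ k, n ≤ k → f m = f k ∨ f m ∈ out (f k) := by
    intro n
    obtain ⟨m, hm⟩ : ∃ m, n ≤ m ∧ ∀ k, n ≤ k → (out (f m)).card ≤ (out (f k)).card := by
      have hne : (Set.range fun k => (out (f (n + k))).card).Nonempty := ⟨_, 0, rfl⟩
      obtain ⟨m, hm⟩ := Nat.sInf_mem hne
      refine ⟨n + m, Nat.le_add_right _ _, fun k hk => ?_⟩
      have hm' : (out (f (n + m))).card = sInf (Set.range fun k => (out (f (n + k))).card) := hm
      rw [hm']
      refine Nat.sInf_le ⟨k - n, ?_⟩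
      show (out (f (n + (k - n)))).card = _
      rw [Nat.add_sub_cancel' hk]
    refine ⟨m, hm.1, ?_⟩
    have hstep : ∀ k l, n ≤ k → n ≤ l → (f k ∈ out (f l) ∨ f l ∈ out (f k)) →
        (f m = f k ∨ f m ∈ out (f k)) → (f m = f l ∨ f m ∈ out (f l)) := by
      intro k l hk hl had h
      rcases had with h1 | h1
      · rcases h with h | h
        · rw [h]
          exact Or.inr h1
        · exact Or.inr (hT.trans _ _ h1 h)
      · rcases h with h | h
        · have h2 := Cl.lt hT h1
          rw [← h] at h2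
          exact absurd (hm.2 l hl) (not_le.2 h2)
        · rcases hT.chain _ _ h _ h1 with h3 | h3 | h3
          · exact Or.inl h3
          · exact Or.inr h3
          · have h2 := Cl.lt hT h3
            exact absurd (hm.2 l hl) (not_le.2 h2)
    -- upwards
    have hup : ∀ j, f m = f (m + j) ∨ f m ∈ out (f (m + j)) := by
      intro j
      induction j with
      | zero => exact Or.inl rfl
      | succ j ih =>
        have h1 := hm.1
        exact hstep (m + j) (m + (j + 1)) (by omega) (by omega) (hadj (m + j)) ih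
    have hdown : ∀ j, n + j ≤ m → f m = f (m - j) ∨ f m ∈ out (f (m - j)) := by
      intro j
      induction j with
      | zero => exact fun _ => Or.inl rfl
      | succ j ih =>
        intro hj
        have h1 := hadj (m - (j + 1))
        have h2 : m - (j + 1) + 1 = m - j := by omega
        rw [h2] at h1
        exact hstep (m - j) (m - (j + 1)) (by omega) (by omega) h1.symm (ih (by omega))
    intro k hk
    rcases le_total m k with h | h
    · have := hup (k - m)
      rwa [Nat.add_sub_cancel' h] at this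
    · have := hdown (m - k) (by omega)
      have h2 : m - (m - k) = k := by omega
      rwa [h2] at this
  choose m hm1 hm2 using key
  let q : ℕ → ℕ := fun i => Nat.rec (m 0) (fun _ x => m (x + 1)) i
  have hq : ∀ i, q (i + 1) = m (q i + 1) := fun i => rfl
  have hqq : ∀ i, ∃ n, q i = m n := by
    intro i
    cases i with
    | zero => exact ⟨0, rfl⟩
    | succ i => exact ⟨q i + 1, rfl⟩
  refine hT.fin ⟨fun i => f (q i), fun i => ?_⟩
  obtain ⟨n, hn⟩ := hqq i
  have h1 : q i + 1 ≤ q (i + 1) := by
    rw [hq]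
    exact hm1 _
  have h2 : n ≤ q (i + 1) := by
    have := hm1 n
    omega
  have h3 := hm2 n (q (i + 1)) h2
  rw [← hn] at h3
  rcases h3 with h3 | h3
  · have := hf h3
    omega
  · exact h3

/-- levels can be put together -/
theorem pi_comb {κ : Cardinal.{0}} (hκ : ℵ₀ < κ) {δ ε : Ordinal.{0}} (hε : ε < κ.ord)
    (hd : ω ∣ ε) (h1 : PI (κ.ord * δ)) (h2 : PI ε) : PI (κ.ord * δ + ε) := by
  classical
  rcases eq_or_ne ε 0 with rfl | hε0
  · rw [add_zero]
    exact h1
  obtain ⟨η, rfl⟩ := hd
  intro G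
  by_cases hG : ∃ f : ℕ → (κ.ord * δ + ω * η).ToType, Function.Injective f ∧
      ∀ n, G.Adj (f n) (f (n + 1))
  · exact Or.inl hG
  right
  have hN : Nonempty (κ.ord * δ + ω * η).ToType := by
    refine Ordinal.nonempty_toType_iff.2 ?_
    intro h0
    have : ω * η ≤ κ.ord * δ + ω * η := le_add_self
    rw [h0] at this
    exact hε0 (le_antisymm this zero_le)
  obtain ⟨out, hT, hout⟩ := exists_forest G hG
  have htop : TG (Set.univ : Set (κ.ord * δ + ω * η).ToType) (κ.ord * δ + ω * η) :=
    tg_iff.2 (typ_univ _).ge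
  obtain ⟨A₁, A₂, -, -, hA₁, hA₂, hlt12⟩ := htop.split
  -- the comparability graph
  let C : SimpleGraph (κ.ord * δ + ω * η).ToType :=
    { Adj := fun x y => x ∈ out y ∨ y ∈ out x
      symm := ⟨fun x y hxy => hxy.symm⟩
      loopless := ⟨fun x hx => hT.irr x (hx.elim id id)⟩ }
  have hC : ¬ ∃ f : ℕ → (κ.ord * δ + ω * η).ToType, Function.Injective f ∧
      ∀ n, C.Adj (f n) (f (n + 1)) := by
    rintro ⟨f, hf, hadj⟩
    exact no_path hT f hf hadj
  obtain ⟨S, hSA, hSi, hST, hSc⟩ := pi_sub h2 C hC hA₂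
  have hScard : #S < κ := hSc.trans_lt (Cardinal.lt_ord.1 hε)
  obtain ⟨T, hTS, hTT, hTd⟩ := hST.split_omega
  let D : ℕ → Set (κ.ord * δ + ω * η).ToType := fun r => {v | ∀ u ∈ out v, u ∉ T r}
  have hD : ∀ v ∈ A₁, ∀ r s, r ≠ s → v ∈ D r ∨ v ∈ D s := by
    intro v _ r s hrs
    by_contra hcon
    rw [not_or] at hcon
    simp only [D, Set.mem_ofPred_eq, not_forall, not_not] at hcon
    obtain ⟨⟨x, hx, hxr⟩, ⟨y, hy, hys⟩⟩ := hcon
    rcases hT.chain v x hx y hy with h1 | h1 | h1
    · rw [h1] at hxr
      exact hTd r s hrs y hxr hys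
    · exact hSi x (hTS r hxr) y (hTS s hys) (Or.inl h1)
    · exact hSi x (hTS r hxr) y (hTS s hys) (Or.inr h1)
  have hbad := fb_all (κ.ord * δ) _ A₁ D hA₁ hD
  obtain ⟨r, hr⟩ := hbad.infinite_compl.nonempty
  simp only [Set.mem_compl_iff, Set.mem_ofPred_eq, not_not] at hr
  have hTc : #(T r) < κ := lt_of_le_of_lt (Cardinal.mk_le_mk_of_subset (hTS r)) hScard
  have hRc := mk_biUnion_finite_lt hκ (T r) hTc (fun v => (out v : Set _))
    fun v => (out v).finite_toSet
  have hA₁' := TG.remove' hκ.le hRc δ _ hr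
  obtain ⟨X, hXA, hXi, hXT, -⟩ := pi_sub h1 G hG hA₁'
  refine ⟨X ∪ T r, ?_, ?_⟩
  · have hXT' : ∀ x ∈ X, ∀ y ∈ T r, x ∉ out y ∧ y ∉ out x := by
      intro x hx y hy
      have h1 := hXA hx
      refine ⟨fun hout => h1.2 ?_, fun hout => h1.1.2 y hout hy⟩
      exact Set.mem_biUnion hy hout
    rintro x hx y hy hxy
    have h1 := hout x y hxy
    rcases hx with hx | hx <;> rcases hy with hy | hy
    · exact hXi x hx y hy hxy
    · rcases h1 with h1 | h1
      · exact (hXT' x hx y hy).1 h1
      · exact (hXT' x hx y hy).2 h1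
    · rcases h1 with h1 | h1
      · exact (hXT' y hy x hx).2 h1
      · exact (hXT' y hy x hx).1 h1
    · exact hSi x (hTS r hx) y (hTS r hy) h1
  · refine typ_eq_of_tg (hXT.add (hTT r) ?_)
    intro x hx y hy
    exact hlt12 x (hXA hx).1.1 y (hSA (hTS r hy))

/-- the path property passes to the part above a level -/
theorem pi_head {κ : Cardinal.{0}} (hκ : ℵ₀ ≤ κ) {δ ε : Ordinal.{0}} (hε : ε < κ.ord)
    (h : PI (κ.ord * δ + ε)) : PI (κ.ord * δ) := by
  classical
  set a := κ.ord * δ with ha
  rcases eq_or_ne a 0 with h0 | h0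
  · rw [h0]
    exact pi_zero
  intro H
  have hκ0 : κ.ord ≠ 0 := (zero_lt_one.trans (one_lt_ord' hκ)).ne'
  let e := (Ordinal.ToType.mk (o := a + ε)).symm
  let e' := (Ordinal.ToType.mk (o := a)).symm
  have hN : Nonempty a.ToType := Ordinal.nonempty_toType_iff.2 h0
  let t : (a + ε).ToType → a.ToType := fun x => if hx : (e x).1 < a then e'.symm ⟨(e x).1, hx⟩
    else Classical.arbitrary _
  have ht : ∀ x, (e x).1 < a → (e' (t x)).1 = (e x).1 := by
    intro x hx
    have h1 : t x = e'.symm ⟨(e x).1, hx⟩ := dif_pos hx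
    rw [h1, OrderIso.apply_symm_apply]
  have htinj : ∀ x y, (e x).1 < a → (e y).1 < a → t x = t y → x = y := by
    intro x y hx hy hxy
    have h1 := ht x hx
    rw [hxy, ht y hy] at h1
    exact e.injective (Subtype.ext h1.symm)
  let G : SimpleGraph (a + ε).ToType :=
    { Adj := fun x y => (e x).1 < a ∧ (e y).1 < a ∧ H.Adj (t x) (t y)
      symm := ⟨fun x y hxy => ⟨hxy.2.1, hxy.1, hxy.2.2.symm⟩⟩
      loopless := ⟨fun x hx => H.loopless.irrefl _ hx.2.2⟩ }
  rcases h G with ⟨p, hp, hadj⟩ | ⟨S, hS, hSt⟩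
  · left
    refine ⟨fun n => t (p n), ?_, fun n => (hadj n).2.2⟩
    intro n m hnm
    exact hp (htinj _ _ (hadj n).1 (hadj m).1 hnm)
  · right
    have hN' : Nonempty (a + ε).ToType := by
      refine Ordinal.nonempty_toType_iff.2 ?_
      intro h1
      have : a ≤ a + ε := le_self_add
      rw [h1] at this
      exact h0 (le_antisymm this zero_le)
    have h1 : TG S (a + ε) := tg_of_le_typ (le_of_eq hSt.symm)
    obtain ⟨g, hg, hm⟩ := h1
    have hlow : ∀ x, x < a → (e (g x)).1 < a := by
      intro x hx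
      by_contra hcon
      rw [not_lt] at hcon
      -- `x + κ ≤ a`
      have hxa : x + κ.ord ≤ a := by
        have h2 : x / κ.ord < δ := (Ordinal.lt_mul_iff_div_lt hκ0).1 hx
        have h3 := Ordinal.div_add_mod x κ.ord
        have h4 : x % κ.ord + κ.ord = κ.ord := by
          have h5 : Ordinal.IsPrincipal (· + ·) κ.ord := Ordinal.isPrincipal_add_ord hκ
          exact h5.add_eq_right (Ordinal.mod_lt x hκ0)
        calc x + κ.ord = κ.ord * (x / κ.ord) + x % κ.ord + κ.ord := by rw [h3]
          _ = κ.ord * Order.succ (x / κ.ord) := by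
            rw [add_assoc, h4, Ordinal.mul_succ]
          _ ≤ a := mul_le_mul_right (Order.succ_le_of_lt h2) _
      have h6 : ∀ y, y < κ.ord → a ≤ (e (g (x + y))).1 := by
        intro y hy
        refine hcon.trans ?_
        rcases eq_or_ne y 0 with rfl | hy0
        · rw [add_zero]
        · have hlt : x < x + y := by
            conv_lhs => rw [← add_zero x]
            exact (add_lt_add_iff_left x).2 (pos_iff_ne_zero.2 hy0)
          have := hm x (x + y) hlt (((add_lt_add_iff_left x).2 hy).trans_le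
            (hxa.trans le_self_add))
          exact (e.lt_iff_lt.2 this).le
      have h7 : ∀ y, y < κ.ord → y ≤ (e (g (x + y))).1 - a := by
        intro y
        induction y using WellFoundedLT.induction with
        | ind y IH =>
          intro hy
          refine le_of_forall_lt ?_
          intro c hc
          refine lt_of_le_of_lt (IH c hc (hc.trans hy)) ?_
          have h8 := hm _ _ ((add_lt_add_iff_left x).2 hc) (((add_lt_add_iff_left x).2 hy).trans_le
            (hxa.trans le_self_add))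
          have h9 : (e (g (x + c))).1 < (e (g (x + y))).1 := e.lt_iff_lt.2 h8
          rw [← Ordinal.add_sub_cancel_of_le (h6 c (hc.trans hy)),
            ← Ordinal.add_sub_cancel_of_le (h6 y hy)] at h9
          exact (add_lt_add_iff_left a).1 h9
      have h10 := h7 ε hε
      have h11 : (e (g (x + ε))).1 < a + ε := (e (g (x + ε))).2
      rw [← Ordinal.add_sub_cancel_of_le (h6 ε hε)] at h11
      exact absurd ((add_lt_add_iff_left a).1 h11) (not_lt.2 h10)
    refine ⟨{y | ∃ x < a, y = t (g x)}, ?_, ?_⟩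
    · rintro _ ⟨x, hx, rfl⟩ _ ⟨y, hy, rfl⟩ hadj
      exact hS _ (hg _ (hx.trans_le le_self_add)) _ (hg _ (hy.trans_le le_self_add))
        ⟨hlow x hx, hlow y hy, hadj⟩
    · refine typ_eq_of_tg ⟨fun x => t (g x), fun x hx => ⟨x, hx, rfl⟩, ?_⟩
      intro x y hxy hy
      have hx := hxy.trans hy
      have h2 := hm _ _ hxy (hy.trans_le le_self_add)
      have h3 : (e (g x)).1 < (e (g y)).1 := e.lt_iff_lt.2 h2
      have h4 : (e' (t (g x))).1 < (e' (t (g y))).1 := by
        rw [ht _ (hlow x hx), ht _ (hlow y hy)]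
        exact h3
      exact e'.lt_iff_lt.1 h4

/-- the level of `α` at `κ` -/
noncomputable def lev (κ : Cardinal.{0}) (α : Ordinal.{0}) : Ordinal.{0} :=
  α % (Order.succ κ).ord / κ.ord

/-- the path property holds if and only if it holds for all levels -/
theorem pi_iff_levels (α : Ordinal.{0}) : ω ∣ α →
    (PI α ↔ ∀ κ : Cardinal.{0}, ℵ₀ ≤ κ → PI (κ.ord * lev κ α)) := by
  intro hd
  constructor
  · intro h κ hκ
    have h0 : (Order.succ κ).ord ≠ 0 := by
      refine (zero_lt_one.trans (one_lt_ord' (hκ.trans (Order.le_succ κ)))).ne'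
    have h1 : PI (α % (Order.succ κ).ord) := by
      rw [← Ordinal.div_add_mod α (Order.succ κ).ord] at h
      exact pi_tail h
    have hκ0 : κ.ord ≠ 0 := (zero_lt_one.trans (one_lt_ord' hκ)).ne'
    rw [← Ordinal.div_add_mod (α % (Order.succ κ).ord) κ.ord] at h1
    exact pi_head hκ (Ordinal.mod_lt _ hκ0) h1
  · induction α using WellFoundedLT.induction with
    | ind α IH =>
      intro h
      by_cases hc : α.card ≤ ℵ₀
      · exact pi_countable hd hc
      · rw [not_le] at hc
        set κ := α.card with hκ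
        have hαlt : α < (Order.succ κ).ord := by
          rw [Cardinal.lt_ord]
          exact Order.lt_succ κ
        have hκα : κ.ord ≤ α := Cardinal.ord_le.2 le_rfl
        have hκ0 : κ.ord ≠ 0 := (zero_lt_one.trans (one_lt_ord' hc.le)).ne'
        have hdm := Ordinal.div_add_mod α κ.ord
        have hεκ : α % κ.ord < κ.ord := Ordinal.mod_lt α hκ0
        have hωκ : ω ∣ κ.ord := by
          have := ord_dvd_ord le_rfl hc.le
          rwa [Cardinal.ord_aleph0] at this
        have hωε : ω ∣ α % κ.ord := by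
          rw [← hdm] at hd
          exact (Ordinal.dvd_add_iff (Dvd.dvd.mul_right hωκ _)).1 hd
        have h1 := h κ hc.le
        unfold lev at h1
        rw [Ordinal.mod_eq_of_lt hαlt] at h1
        have h2 : PI (α % κ.ord) := by
          refine IH _ (hεκ.trans_le hκα) hωε ?_
          intro κ' hκ'
          rcases lt_or_ge κ' κ with hlt | hle
          · obtain ⟨c, hc'⟩ := ord_dvd_ord (μ := Order.succ κ') (κ := κ)
              (hκ'.trans (Order.le_succ κ')) (Order.succ_le_of_lt hlt)
            have h5 : α % (Order.succ κ').ord = (α % κ.ord) % (Order.succ κ').ord := by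
              conv_lhs => rw [← hdm]
              rw [hc', mul_assoc, Ordinal.mul_add_mod_self]
            have h6 := h κ' hκ'
            unfold lev at h6 ⊢
            rw [h5] at h6
            exact h6
          · have h6 : α % κ.ord < κ'.ord := hεκ.trans_le (Cardinal.ord_le_ord.2 hle)
            have h7 : κ'.ord < (Order.succ κ').ord :=
              Cardinal.ord_lt_ord.2 (Order.lt_succ κ')
            unfold lev
            rw [Ordinal.mod_eq_of_lt (h6.trans h7), Ordinal.div_eq_zero_of_lt h6, mul_zero]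
            exact pi_zero
        rw [← hdm]
        exact pi_comb hc hεκ hωε h1 h2

end Pool.Agent.CY
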